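import Mathlib
import Pool.Agent.H.MP_947ed7_lc.A

namespace Pool.Agent.Results.MP_947ed7_lc.No
open Set Filter Topology

def Emb {X Y : Type} [TopologicalSpace X] [TopologicalSpace Y] (f g : X → Y) : Prop :=
  ∃ (σ : X → X) (τ : Y → Y), IsEmbedding σ ∧ IsEmbedding τ ∧ g ∘ σ = τ ∘ f

def B1 {X Y : Type} [TopologicalSpace X] [TopologicalSpace Y] (f : X → Y) : Prop :=
  ∀ U : Set Y, IsOpen U → IsGδ (f ⁻¹' U)ᶜ

def Bor {X Y : Type} [TopologicalSpace X] [TopologicalSpace Y] (f : X → Y) : Prop :=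
  ∀ U : Set Y, IsOpen U → @MeasurableSet X (borel X) (f ⁻¹' U)

def Bqo {Q : Type} (le : Q → Q → Prop) : Prop :=
  ¬ ∃ A : Set ℕ, A.Infinite ∧
    ∃ h : {b : ℕ → Bool // {n | b n = true}.Infinite ∧ {n | b n = true} ⊆ A} → Q,
      (range h).Countable ∧ (∀ q, IsOpen (h ⁻¹' {q})) ∧
      ∀ b c, (∃ m, IsLeast {n | b.1 n = true} m ∧ {n | c.1 n = true} = {n | b.1 n = true} \ {m}) →
        ¬ le (h b) (h c)

theorem result : (∃ f : ℕ → (ℕ → Bool) → ℕ, (∀ n, B1 (f n)) ∧ ∀ n m, Emb (f n) (f m) → n = m) ∧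
    (¬ Bqo fun f g : {f : (ℕ → Bool) → ℕ // B1 f} => Emb f.1 g.1) ∧
    ¬ Bqo fun f g : {f : (ℕ → Bool) → ℕ // Bor f} => Emb f.1 g.1 :=
  Pool.Agent.H.MP_947ed7_lc.main

end Pool.Agent.Results.MP_947ed7_lc.No
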